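import Pool.Agent.Q85.VL.Defs
import Pool.Agent.Q67.VD.Alg

/-!
VL-12: without a closed chain of arcs there is a function with Lipschitz constant one which
increases along the arcs.
-/

set_option autoImplicit false

open MeasureTheory Set Metric
open H459R3.NS Pool.Agent.W268.NS Pool.Agent.Q67.VD

namespace Pool.Agent.U401.VL

open Pool.Agent.Q85.VL

lemma len_add_le (a b : V) : len (a + b) ≤ len a + len b := by
  rw [len_eq, len_eq, len_eq, WithLp.toLp_add]; exact norm_add_le _ _

lemma len_neg (a : V) : len (-a) = len a := by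
  rw [len_eq, len_eq, WithLp.toLp_neg, norm_neg]

lemma len_sub_comm (a b : V) : len (a - b) = len (b - a) := by
  rw [← len_neg (a - b), neg_sub]

lemma len_tri (a b c : V) : len (a - c) ≤ len (a - b) + len (b - c) := by
  have := len_add_le (a - b) (b - c)
  rwa [sub_add_sub_cancel] at this

lemma len_le_norm (a : V) : len a ≤ 2 * ‖a‖ := by
  refine len_le_of_sq (by positivity) ?_
  have h := fun i : Fin 3 => norm_le_pi_norm a i
  simp only [Real.norm_eq_abs] at h
  have h' : ∀ i : Fin 3, a i ^ 2 ≤ ‖a‖ ^ 2 := fun i => sq_le_sq' (by linarith [abs_le.1 (h i)])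
    (abs_le.1 (h i)).2
  have h0 := h' 0
  have h1 := h' 1
  have h2 := h' 2
  nlinarith

/-- The value of a chain of arcs. -/
noncomputable def val (ε : ℝ) (n : ℕ) (p q : ℕ → V) (l : ℕ → ℝ) (y : V) : ℝ :=
  ε * ∑ i ∈ Finset.range (n + 1), l i - ∑ i ∈ Finset.range n, len (p (i + 1) - q i) - len (y - q n)

/-- The values of the chains. -/
def vals (z : V → V) (D : Set V) (ε : ℝ) (y : V) : Set ℝ :=
  {r | ∃ (n : ℕ) (p q : ℕ → V) (l : ℕ → ℝ), (∀ i ≤ n, Arc z D (p i) (q i) (l i)) ∧
    r = val ε n p q l y}

lemma arc_left {z : V → V} {D : Set V} {p q : V} {l : ℝ} (h : Arc z D p q l) : p ∈ D := by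
  obtain ⟨hl, γ, h0, -, h⟩ := h
  have := (h 0 ⟨le_rfl, hl.le⟩).1
  rwa [h0] at this

theorem stmG : StmG := by
  intro z D a R ε hD hε hc
  by_cases hne : ∃ p q l, Arc z D p q l
  swap
  · refine ⟨fun _ => 0, fun y y' => by simp [len_nonneg], fun p q l h => (hne ⟨p, q, l, h⟩).elim⟩
  obtain ⟨p₀, q₀, l₀, h₀⟩ := hne
  have hnon : ∀ y, (vals z D ε y).Nonempty := fun y =>
    ⟨_, 0, fun _ => p₀, fun _ => q₀, fun _ => l₀, fun _ _ => h₀, rfl⟩
  have hb : ∀ y, ∀ r ∈ vals z D ε y, r ≤ 2 * R + len (a - y) := by
    rintro y r ⟨n, p, q, l, ha, rfl⟩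
    have h1 : ε * ∑ i ∈ Finset.range (n + 1), l i ≤
        ∑ i ∈ Finset.range n, len (p (i + 1) - q i) + len (p 0 - q n) := by
      by_contra hcon
      push Not at hcon
      refine hc ⟨n + 1, Function.update p (n + 1) (p 0), q, l, by omega, ?_, ?_, ?_⟩
      · rw [Function.update_self, Function.update_of_ne (by omega)]
      · intro i hi
        rw [Function.update_of_ne (by omega)]
        exact ha i (by omega)
      · rw [Finset.sum_range_succ, Function.update_self]
        refine lt_of_eq_of_lt ?_ hcon
        congr 1
        refine Finset.sum_congr rfl fun i hi => ?_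
        rw [Function.update_of_ne (by have := Finset.mem_range.1 hi; omega)]
    have h2 := len_tri (p 0) y (q n)
    have h3 := len_tri (p 0) a y
    have h4 := len_le_norm (p 0 - a)
    have h5 := hD _ (arc_left (ha 0 (Nat.zero_le _)))
    simp only [val]
    linarith
  have hba : ∀ y, BddAbove (vals z D ε y) := fun y => ⟨_, fun r hr => hb y r hr⟩
  have hlip : ∀ y y', sSup (vals z D ε y) ≤ sSup (vals z D ε y') + len (y - y') := by
    intro y y'
    refine csSup_le (hnon y) ?_
    rintro r ⟨n, p, q, l, ha, rfl⟩
    have h1 : val ε n p q l y' ≤ sSup (vals z D ε y') :=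
      le_csSup (hba y') ⟨n, p, q, l, ha, rfl⟩
    have h2 := len_tri y' y (q n)
    rw [len_sub_comm y' y] at h2
    simp only [val] at h1 ⊢
    linarith
  refine ⟨fun y => sSup (vals z D ε y), fun y y' => abs_le.2 ⟨?_, ?_⟩, ?_⟩
  · have := hlip y' y
    rw [len_sub_comm y' y] at this
    simp only
    linarith
  · have := hlip y y'
    simp only
    linarith
  · intro p₁ q₁ l₁ h₁
    simp only
    rw [← le_sub_iff_add_le]
    refine csSup_le (hnon p₁) ?_
    rintro r ⟨n, p, q, l, ha, rfl⟩
    have h1 : val ε (n + 1) (Function.update p (n + 1) p₁) (Function.update q (n + 1) q₁)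
        (Function.update l (n + 1) l₁) q₁ ≤ sSup (vals z D ε q₁) := by
      refine le_csSup (hba q₁) ⟨n + 1, _, _, _, ?_, rfl⟩
      intro i hi
      rcases Nat.lt_or_ge i (n + 1) with h | h
      · rw [Function.update_of_ne (by omega), Function.update_of_ne (by omega),
          Function.update_of_ne (by omega)]
        exact ha i (by omega)
      · have : i = n + 1 := by omega
        subst this
        rw [Function.update_self, Function.update_self, Function.update_self]
        exact h₁
    have h2 : val ε (n + 1) (Function.update p (n + 1) p₁) (Function.update q (n + 1) q₁)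
        (Function.update l (n + 1) l₁) q₁ = val ε n p q l p₁ + ε * l₁ := by
      have eA : ∑ i ∈ Finset.range (n + 1 + 1), Function.update l (n + 1) l₁ i =
          ∑ i ∈ Finset.range (n + 1), l i + l₁ := by
        rw [Finset.sum_range_succ, Function.update_self]
        congr 1
        exact Finset.sum_congr rfl fun i hi => by
          rw [Function.update_of_ne (by have := Finset.mem_range.1 hi; omega)]
      have eB : ∑ i ∈ Finset.range (n + 1), len (Function.update p (n + 1) p₁ (i + 1) -
          Function.update q (n + 1) q₁ i) =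
            ∑ i ∈ Finset.range n, len (p (i + 1) - q i) + len (p₁ - q n) := by
        rw [Finset.sum_range_succ, Function.update_self,
          Function.update_of_ne (by omega : n ≠ n + 1)]
        congr 1
        exact Finset.sum_congr rfl fun i hi => by
          rw [Function.update_of_ne (by have := Finset.mem_range.1 hi; omega),
            Function.update_of_ne (by have := Finset.mem_range.1 hi; omega)]
      simp only [val]
      rw [eA, eB, Function.update_self, sub_self, len_zero]
      ring
    linarith

end Pool.Agent.U401.VL
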