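import Pool.Agent.U401.VL.G
import Pool.Agent.Q85.CL.FluxL

/-!
VL-13: regularisation of a function which increases along the arcs.
-/

set_option autoImplicit false

open MeasureTheory Set Metric Filter
open scoped ContDiff Topology Convolution
open H459R3.NS Pool.Agent.W268.NS Pool.Agent.Q67.VD

namespace Pool.Agent.U401.VL

open Pool.Agent.Q85.VL Pool.Agent.Q85.CL

lemma norm_le_len (a : V) : ‖a‖ ≤ len a :=
  (pi_norm_le_iff_of_nonneg (len_nonneg a)).2 fun i => abs_le_len a i

/-- lower bound of the derivative from the right differences -/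
lemma fd_ge {G : V → ℝ} (hG : ContDiff ℝ 1 G) {y n : V} {c δ : ℝ} (hδ : 0 < δ)
    (h : ∀ s, 0 < s → s ≤ δ → G y + c * s ≤ G (y + s • n)) : c ≤ fderiv ℝ G y n := by
  have h1 : HasFDerivAt G (fderiv ℝ G y) (y + (0 : ℝ) • n) := by
    rw [zero_smul, add_zero]
    exact ((hG.differentiable (by norm_num)) y).hasFDerivAt
  have h2 : HasDerivAt (fun s : ℝ => y + s • n) n 0 := by
    simpa using ((hasDerivAt_id (0 : ℝ)).smul_const n).const_add y
  have h3 : HasDerivAt (fun s : ℝ => G (y + s • n)) (fderiv ℝ G y n) 0 :=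
    h1.comp_hasDerivAt (0 : ℝ) h2
  have h4 := hasDerivAt_iff_tendsto_slope_zero.1 h3
  have h5 : Tendsto (fun t : ℝ => t⁻¹ • (G (y + (0 + t) • n) - G (y + (0 : ℝ) • n))) (𝓝[>] 0)
      (𝓝 (fderiv ℝ G y n)) := h4.mono_left (nhdsWithin_mono _ fun x hx => ne_of_gt hx)
  refine ge_of_tendsto h5 ?_
  filter_upwards [Ioc_mem_nhdsGT hδ] with s hs
  rw [zero_add, zero_smul, add_zero, smul_eq_mul, ← div_eq_inv_mul, le_div_iff₀ hs.1]
  have := h s hs.1 hs.2
  linarith

/-- existence of the curves of a bounded field -/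
lemma curve {F : V → V} {y x : V} {δ : ℝ} (hδ : 0 < δ) (hb : ∀ z, ‖F z‖ ≤ 1)
    (hF : ∃ K, LipschitzOnWith K F (closedBall y (2 * δ))) (hx : x ∈ closedBall y δ) :
    ∃ γ : ℝ → V, γ 0 = x ∧ ∀ t ∈ Icc (0 : ℝ) δ, HasDerivWithinAt γ (F (γ t)) (Icc 0 δ) t := by
  obtain ⟨K, hK⟩ := hF
  have hP : IsPicardLindelof (fun _ : ℝ => F) (tmin := 0) (tmax := δ) ⟨0, le_rfl, hδ.le⟩ y
      ⟨2 * δ, by positivity⟩ ⟨δ, hδ.le⟩ 1 K :=
    IsPicardLindelof.of_time_independent (fun z _ => by simpa using hb z) hK (by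
      change (1 : ℝ) * max (δ - 0) (0 - 0) ≤ 2 * δ - δ
      rw [sub_zero, sub_self, max_eq_left hδ.le]
      linarith)
  obtain ⟨α, h0, h⟩ := hP.exists_eq_forall_mem_Icc_hasDerivWithinAt (x := x) hx
  exact ⟨α, h0, h⟩

/-- The unit field of the vorticity. -/
noncomputable def un (z : V → V) (y : V) : V := (len (z y))⁻¹ • z y

lemma len_un_le (z : V → V) (y : V) : len (un z y) ≤ 1 := by
  rw [un, len_smul, abs_of_nonneg (inv_nonneg.2 (len_nonneg _))]
  exact inv_mul_le_one

lemma norm_un_le (z : V → V) (y : V) : ‖un z y‖ ≤ 1 := (norm_le_len _).trans (len_un_le z y)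

lemma len_orient {θ : V → ℝ} {v : V → V} (hθ : ∀ y, θ y = 1 ∨ θ y = -1) (y : V) :
    len (θ y • vort v y) = om v y := by
  rw [len_smul, om]
  rcases hθ y with h | h <;> rw [h] <;> simp

lemma abs_len_sub (a b : V) : |len a - len b| ≤ len (a - b) := by
  have h1 := len_add_le (a - b) b
  have h2 := len_add_le (b - a) a
  rw [sub_add_cancel] at h1 h2
  rw [len_sub_comm b a] at h2
  exact abs_le.2 ⟨by linarith, by linarith⟩

lemma un_close {a b : V} (hb : 1 < len b) (ha : 0 < len a) :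
    ‖(len a)⁻¹ • a - (len b)⁻¹ • b‖ ≤ 3 * ‖a - b‖ := by
  have e : (len a)⁻¹ • a - (len b)⁻¹ • b =
      (len b)⁻¹ • (a - b) + ((len b - len a) * (len b)⁻¹) • ((len a)⁻¹ • a) := by
    have hb' : len b ≠ 0 := by linarith
    have ha' : len a ≠ 0 := ha.ne'
    funext i
    simp only [Pi.sub_apply, Pi.smul_apply, Pi.add_apply, smul_eq_mul]
    field_simp
    ring
  have hb0 : 0 < len b := by linarith
  have hinv : (len b)⁻¹ ≤ 1 := inv_le_one_of_one_le₀ hb.le
  have hinv0 : 0 ≤ (len b)⁻¹ := inv_nonneg.2 hb0.le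
  have h1 : ‖(len b)⁻¹ • (a - b)‖ ≤ ‖a - b‖ := by
    rw [norm_smul, Real.norm_eq_abs, abs_of_nonneg hinv0]
    exact mul_le_of_le_one_left (norm_nonneg _) hinv
  have h2 : ‖(len a)⁻¹ • a‖ ≤ 1 := by
    refine (norm_le_len _).trans ?_
    rw [len_smul, abs_of_nonneg (inv_nonneg.2 (len_nonneg _))]
    exact inv_mul_le_one
  have h3 : |(len b - len a) * (len b)⁻¹| ≤ 2 * ‖a - b‖ := by
    rw [abs_mul, abs_of_nonneg hinv0]
    have h4 := abs_len_sub b a
    rw [len_sub_comm] at h4
    have h5 := len_le_norm (a - b)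
    calc |len b - len a| * (len b)⁻¹ ≤ |len b - len a| * 1 :=
          mul_le_mul_of_nonneg_left hinv (abs_nonneg _)
      _ ≤ 2 * ‖a - b‖ := by linarith
  rw [e]
  refine (norm_add_le _ _).trans ?_
  rw [norm_smul ((len b - len a) * (len b)⁻¹), Real.norm_eq_abs]
  have h6 : |(len b - len a) * (len b)⁻¹| * ‖(len a)⁻¹ • a‖ ≤ 2 * ‖a - b‖ * 1 :=
    mul_le_mul h3 h2 (norm_nonneg _) (by positivity)
  linarith

lemma sm_om_cd {v : V → V} (hv : SM v) {s : Set V} (hs : ∀ y ∈ s, 0 < om v y) :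
    ContDiffOn ℝ 1 (fun y => (om v y)⁻¹ • vort v y) s := by
  have h1 : ∀ i, ContDiff ℝ 1 (fun y => vort v y i) := fun i => (sm_vortL hv i).of_le (by
    exact_mod_cast le_top)
  have h2 : ContDiff ℝ 1 (vort v) := contDiff_pi.2 h1
  have h3 : ContDiff ℝ 1 (fun y => vort v y ⬝ᵥ vort v y) := by
    simp only [dotProduct]
    exact ContDiff.sum fun i _ => (h1 i).mul (h1 i)
  have h4 : ContDiffOn ℝ 1 (om v) s := by
    unfold om len
    refine h3.contDiffOn.sqrt fun y hy => ?_
    have := hs y hy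
    rw [om, len, Real.sqrt_pos] at this
    exact this.ne'
  exact (h4.inv fun y hy => (hs y hy).ne').smul h2.contDiffOn

lemma theta_const {v : V → V} {θ : V → ℝ} {a : V} {R : ℝ} (hθ : Orient θ a R (vort v)) {y : V}
    {δ : ℝ} (h1 : ∀ x ∈ closedBall y δ, ‖x - a‖ ≤ R) (h2 : ∀ x ∈ closedBall y δ, 0 < om v x)
    (hδ : 0 < δ) {x : V} (hx : x ∈ closedBall y δ) : θ x = θ y := by
  have hc : ContinuousOn θ (closedBall y δ) := hθ.2.mono fun x hx => ⟨h1 x hx, fun h0 => by
    have := h2 x hx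
    rw [om, h0, len_zero] at this
    exact lt_irrefl _ this⟩
  have hp : IsPreconnected (closedBall y δ) := (convex_closedBall y δ).isPreconnected
  have hT : (({1, -1} : Set ℝ)).Finite := by simp
  exact hp.constant_of_mapsTo hT.isDiscrete hc
    (fun x _ => by rcases hθ.1 x with h | h <;> simp [h]) hx (mem_closedBall_self hδ.le)

/-- The increase of `g` along the direction of the field at a point. -/
lemma incr {v : V → V} {θ m g : V → ℝ} {a : V} {R ε : ℝ} (hv : SM v)
    (hm : ∀ y, 0 ≤ m y) (hθ : Orient θ a R (vort v))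
    (hg : ∀ y y', |g y - g y'| ≤ len (y - y'))
    (hA : ∀ p q l, Arc (fun y => θ y • vort v y) {y | ‖y - a‖ ≤ R ∧ m y < om v y} p q l →
      g p + ε * l ≤ g q) {y : V} {δ : ℝ} (hδ : 0 < δ) (h1 : ∀ x ∈ closedBall y (2 * δ), ‖x - a‖ ≤ R)
    (h2 : ∀ x ∈ closedBall y (2 * δ), m x < om v x) (h3 : 1 < om v y)
    (h4 : ∀ x ∈ closedBall y (2 * δ), ‖vort v x - vort v y‖ ≤ ε / 12) {x : V}
    (hx : x ∈ closedBall y δ) {h : ℝ} (hh : 0 < h) (hhδ : h ≤ δ) :
    g x + ε / 2 * h ≤ g (x + h • un (fun y => θ y • vort v y) y) := by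
  set z : V → V := fun y => θ y • vort v y with hz
  have hpos : ∀ x ∈ closedBall y (2 * δ), 0 < om v x := fun x hx => (hm x).trans_lt (h2 x hx)
  have hθc : ∀ x ∈ closedBall y (2 * δ), θ x = θ y := fun x hx =>
    theta_const hθ h1 hpos (by positivity) hx
  have hun : ∀ x ∈ closedBall y (2 * δ), un z x = θ y • ((om v x)⁻¹ • vort v x) := by
    intro x hx
    simp only [un, hz]
    rw [len_orient hθ.1, hθc x hx, smul_comm]
  have hyy : y ∈ closedBall y (2 * δ) := mem_closedBall_self (by positivity)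
  have hL : ∃ K, LipschitzOnWith K (un z) (closedBall y (2 * δ)) := by
    have hcd : ContDiffOn ℝ 1 (un z) (closedBall y (2 * δ)) :=
      ((contDiffOn_const (c := θ y)).smul (sm_om_cd hv hpos)).congr hun
    exact hcd.exists_lipschitzOnWith one_ne_zero (convex_closedBall _ _)
      (isCompact_closedBall _ _)
  have hcl : ∀ x ∈ closedBall y (2 * δ), ‖un z x - un z y‖ ≤ ε / 4 := by
    intro x hx
    rw [hun x hx, hun y hyy, ← smul_sub, norm_smul]
    have e1 : ‖θ y‖ = 1 := by rcases hθ.1 y with h | h <;> rw [h] <;> simp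
    rw [e1, one_mul]
    have := un_close (a := vort v x) (b := vort v y) h3 (hpos x hx)
    have h5 := h4 x hx
    simp only [om]
    linarith
  obtain ⟨γ, h0, hγ⟩ := curve hδ (norm_un_le z) hL hx
  have hst : ∀ t ∈ Icc (0 : ℝ) δ, γ t ∈ closedBall y (2 * δ) := by
    intro t ht
    have h6 : ‖γ t - γ 0‖ ≤ 1 * (t - 0) :=
      norm_image_sub_le_of_norm_deriv_le_segment' (f' := fun s => un z (γ s))
        (fun s hs => (hγ s ⟨hs.1, hs.2.trans ht.2⟩).mono (Icc_subset_Icc_right ht.2))
        (fun s _ => norm_un_le z _) t ⟨ht.1, le_rfl⟩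
    rw [mem_closedBall, dist_eq_norm] at hx ⊢
    rw [h0] at h6
    have h7 : γ t - y = (γ t - x) + (x - y) := by abel
    rw [h7]
    refine (norm_add_le _ _).trans ?_
    linarith [ht.2]
  have harc : Arc z {y | ‖y - a‖ ≤ R ∧ m y < om v y} x (γ h) h := by
    refine ⟨hh, γ, h0, rfl, fun s hs => ⟨⟨h1 _ (hst s ⟨hs.1, hs.2.trans hhδ⟩),
      h2 _ (hst s ⟨hs.1, hs.2.trans hhδ⟩)⟩, ?_⟩⟩
    exact (hγ s ⟨hs.1, hs.2.trans hhδ⟩).mono (Icc_subset_Icc_right hhδ)
  have h8 := hA _ _ _ harc
  have h9 : ‖(γ h - h • un z y) - (γ 0 - (0 : ℝ) • un z y)‖ ≤ ε / 4 * (h - 0) := by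
    refine norm_image_sub_le_of_norm_deriv_le_segment' (f := fun s => γ s - s • un z y)
      (f' := fun s => un z (γ s) - un z y) (a := 0) (b := h)
      (fun s hs => ?_) (fun s hs => hcl _ (hst s ⟨hs.1, hs.2.le.trans hhδ⟩)) h ⟨hh.le, le_rfl⟩
    refine ((hγ s ⟨hs.1, hs.2.trans hhδ⟩).mono (Icc_subset_Icc_right hhδ)).sub ?_
    simpa using ((hasDerivWithinAt_id s (Icc (0 : ℝ) h)).smul_const (un z y))
  rw [h0, zero_smul, sub_zero, sub_zero] at h9
  have e2 : γ h - (x + h • un z y) = γ h - h • un z y - x := by abel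
  have h10 := hg (γ h) (x + h • un z y)
  rw [e2] at h10
  have h11 := len_le_norm (γ h - h • un z y - x)
  have h12 := (abs_le.1 h10).2
  linarith

theorem stmMol : StmMol := by
  intro v θ m g a R ε hv hR hε hε1 hmc hm hθ hg hA
  have hg1 : Continuous g := by
    refine (LipschitzWith.of_dist_le_mul (K := 2) fun x y => ?_).continuous
    rw [Real.dist_eq, dist_eq_norm]
    exact (hg x y).trans (by simpa using len_le_norm (x - y))
  -- the radius
  have hK : IsCompact (closedBall a R) := isCompact_closedBall _ _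
  have hvc : Continuous (vort v) := continuous_pi fun i => vort_contL hv i
  have hu1 := hK.uniformContinuousOn_of_continuous hvc.continuousOn
  have hu2 := hK.uniformContinuousOn_of_continuous ((om_contL hv).sub hmc).continuousOn
  obtain ⟨δ₁, hδ₁, hu1⟩ := Metric.uniformContinuousOn_iff.1 hu1 (ε / 12) (by positivity)
  obtain ⟨δ₂, hδ₂, hu2⟩ := Metric.uniformContinuousOn_iff.1 hu2 1 one_pos
  obtain ⟨δ, hδ, hd1, hd2, hd3⟩ : ∃ δ : ℝ, 0 < δ ∧ 2 * δ < δ₁ ∧ 2 * δ < δ₂ ∧ 2 * δ ≤ R / 2 := by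
    refine ⟨min (min (δ₁ / 4) (δ₂ / 4)) (R / 4), by positivity, ?_, ?_, ?_⟩
    · have : min (min (δ₁ / 4) (δ₂ / 4)) (R / 4) ≤ δ₁ / 4 :=
        (min_le_left _ _).trans (min_le_left _ _)
      linarith
    · have : min (min (δ₁ / 4) (δ₂ / 4)) (R / 4) ≤ δ₂ / 4 :=
        (min_le_left _ _).trans (min_le_right _ _)
      linarith
    · have : min (min (δ₁ / 4) (δ₂ / 4)) (R / 4) ≤ R / 4 := min_le_right _ _
      linarith
  -- the mollified function
  let φ : ContDiffBump (0 : V) := ⟨δ / 2, δ, by positivity, by linarith⟩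
  let η : V → ℝ := φ.normed volume
  have hη0 : ∀ t, 0 ≤ η t := φ.nonneg_normed
  have hηc : Continuous η := φ.continuous_normed
  have hηs : HasCompactSupport η := φ.hasCompactSupport_normed
  have hη1 : ∫ t, η t = 1 := φ.integral_normed
  have hηi : Integrable η := hηc.integrable_of_hasCompactSupport hηs
  have hηb : ∀ t, η t ≠ 0 → ‖t‖ < δ := by
    intro t ht
    have : t ∈ Function.support (φ.normed volume) := ht
    rw [φ.support_normed_eq, mem_ball_zero_iff] at this
    exact this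
  let G : V → ℝ := fun y => ∫ t, η t * g (y - t)
  have hint : ∀ y, Integrable fun t => η t * g (y - t) := fun y =>
    (hηc.mul (hg1.comp (continuous_const.sub continuous_id))).integrable_of_hasCompactSupport
      hηs.mul_right
  have hGc : ContDiff ℝ 1 G := by
    have h1 : ContDiff ℝ 1 (η ⋆[ContinuousLinearMap.lsmul ℝ ℝ, volume] g) :=
      hηs.contDiff_convolution_left _ (φ.contDiff_normed.of_le (by exact_mod_cast le_top))
        hg1.locallyIntegrable
    exact h1
  -- comparison principle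
  have hcmp : ∀ (y y' : V) (c : ℝ), (∀ t, η t ≠ 0 → g (y - t) + c ≤ g (y' - t)) →
      G y + c ≤ G y' := by
    intro y y' c h
    have h1 : ∫ t, (η t * g (y - t) + η t * c) ≤ ∫ t, η t * g (y' - t) := by
      refine integral_mono ((hint y).add (hηi.mul_const c)) (hint y') fun t => ?_
      by_cases ht : η t = 0
      · simp [ht]
      · have := mul_le_mul_of_nonneg_left (h t ht) (hη0 t)
        simp only
        linarith
    rw [integral_add (hint y) (hηi.mul_const c), integral_mul_const, hη1, one_mul] at h1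
    exact h1
  have hGl : ∀ y y', |G y - G y'| ≤ len (y - y') := by
    have key : ∀ y y', G y + -(len (y - y')) ≤ G y' := by
      intro y y'
      refine hcmp y y' _ fun t _ => ?_
      have := (abs_le.1 (hg (y - t) (y' - t))).2
      rw [sub_sub_sub_cancel_right] at this
      linarith
    intro y y'
    have h1 := key y y'
    have h2 := key y' y
    rw [len_sub_comm y' y] at h2
    exact abs_le.2 ⟨by linarith, by linarith⟩
  refine ⟨G, hGc, hGl, fun y hy => ?_⟩
  have hfl : ∀ n : V, -len n ≤ fderiv ℝ G y n := by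
    intro n
    refine fd_ge hGc (δ := 1) one_pos fun s hs _ => ?_
    have := (abs_le.1 (hGl y (y + s • n))).2
    rw [sub_add_cancel_left, len_neg, len_smul, abs_of_pos hs] at this
    linarith
  have hmy := hm y
  rcases le_or_gt (om v y) (m y + 1) with hc | hc
  · have h1 := hfl (θ y • vort v y)
    rw [len_orient hθ.1] at h1
    have h0 : 0 ≤ om v y := len_nonneg _
    nlinarith
  · have hsub : ∀ x ∈ closedBall y (2 * δ), x ∈ closedBall a R := by
      intro x hx
      rw [mem_closedBall, dist_eq_norm] at hx ⊢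
      have : x - a = (x - y) + (y - a) := by abel
      rw [this]
      refine (norm_add_le _ _).trans ?_
      linarith
    have hya : y ∈ closedBall a R := hsub y (mem_closedBall_self (by positivity))
    have hkey : ∀ x ∈ closedBall y δ, ∀ h : ℝ, 0 < h → h ≤ δ →
        g x + ε / 2 * h ≤ g (x + h • un (fun y => θ y • vort v y) y) := by
      intro x hx h hh hhδ
      refine incr hv hm hθ hg hA hδ (fun x hx => ?_) (fun x hx => ?_) (by linarith)
        (fun x hx => ?_) hx hh hhδ
      · have := hsub x hx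
        rwa [mem_closedBall, dist_eq_norm] at this
      · have h1 := hu2 x (hsub x hx) y hya ((mem_closedBall.1 hx).trans_lt hd2)
        rw [Real.dist_eq] at h1
        have h2 := (abs_lt.1 h1).1
        simp only [Pi.sub_apply] at h2
        linarith
      · have h1 := hu1 x (hsub x hx) y hya ((mem_closedBall.1 hx).trans_lt hd1)
        rw [dist_eq_norm] at h1
        exact h1.le
    have h1 : ε / 2 ≤ fderiv ℝ G y (un (fun y => θ y • vort v y) y) := by
      refine fd_ge hGc hδ fun s hs hsδ => hcmp _ _ _ fun t ht => ?_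
      have h2 : y - t ∈ closedBall y δ := by
        rw [mem_closedBall, dist_eq_norm, sub_sub_cancel_left, norm_neg]
        exact (hηb t ht).le
      have h3 := hkey (y - t) h2 s hs hsδ
      have e : y - t + s • un (fun y => θ y • vort v y) y =
          y + s • un (fun y => θ y • vort v y) y - t := by abel
      rwa [e] at h3
    have h0 : 0 < om v y := by linarith
    have e : θ y • vort v y = om v y • un (fun y => θ y • vort v y) y := by
      rw [un, len_orient hθ.1, smul_smul, mul_inv_cancel₀ h0.ne', one_smul]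
    rw [e, map_smul, smul_eq_mul]
    nlinarith

end Pool.Agent.U401.VL
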